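import Mathlib
import Pool.Agent.X109.CD.C

/-!
# A complete countably dimensional locally convex space with a hypercyclic operator

For real and for complex scalars there is a complete Hausdorff locally convex space of countably
infinite algebraic dimension which supports a hypercyclic operator.
-/

set_option autoImplicit false

open Filter Topology

namespace Pool.Agent.Results.MP_3984bd_an.CompleteCountable

open Pool.Agent.X109.CD

/-- There is a complete Hausdorff locally convex space `X` over `𝕜` (real or complex scalars) with a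
countably infinite Hamel basis, and a continuous linear operator `T` on `X` such that some vector
`x` has a dense orbit `{T ^ n x : n ≥ 0}`. Local convexity is expressed by the existence of a
family of seminorms which defines the topology. -/
theorem result (𝕜 : Type) [RCLike 𝕜] :
    ∃ (X : Type) (_ : AddCommGroup X) (_ : Module 𝕜 X) (_ : UniformSpace X),
      IsUniformAddGroup X ∧ ContinuousSMul 𝕜 X ∧ T2Space X ∧
      (∃ (ι : Type) (p : SeminormFamily 𝕜 X ι), WithSeminorms p) ∧
      CompleteSpace X ∧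
      Nonempty (Module.Basis ℕ 𝕜 X) ∧
      ∃ (T : X →L[𝕜] X) (x : X), Dense (Set.range (fun n : ℕ => (T ^ n) x)) := by
  let t : TopologicalSpace (E 𝕜) := top 𝕜 𝒲
  have hw := withSeminorms (𝕜 := 𝕜) 𝒲
  have ha : IsTopologicalAddGroup (E 𝕜) := hw.topologicalAddGroup
  let u : UniformSpace (E 𝕜) := IsTopologicalAddGroup.rightUniformSpace (E 𝕜)
  have hu : IsUniformAddGroup (E 𝕜) := isUniformAddGroup_of_addCommGroup
  refine ⟨E 𝕜, inferInstance, inferInstance, u, hu, hw.continuousSMul, t2 𝒲,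
    ⟨𝒲.W, fam 𝕜 𝒲, hw⟩, complete 𝒲 finite_of_bounded,
    ⟨(Finsupp.basisSingleOne : Module.Basis ℕ 𝕜 (ℕ →₀ 𝕜))⟩, ?_⟩
  have hT : Continuous (Pool.Agent.X109.CD.T 𝕜) := hw.continuous_of_isBounded hw _ bounded_T
  let T' : E 𝕜 →L[𝕜] E 𝕜 := ⟨Pool.Agent.X109.CD.T 𝕜, hT⟩
  refine ⟨T', e 𝕜 1, ?_⟩
  have hpow : ∀ (n : ℕ) (x : E 𝕜), (T' ^ n) x = (Pool.Agent.X109.CD.T 𝕜 ^ n) x := by
    intro n
    induction n with
    | zero => intro x; rfl
    | succ n ih =>
      intro x
      rw [pow_succ, pow_succ]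
      show (T' ^ n) (T' x) = (Pool.Agent.X109.CD.T 𝕜 ^ n) (Pool.Agent.X109.CD.T 𝕜 x)
      rw [ih]
      rfl
  intro y
  rw [mem_closure_iff_nhds]
  intro U hU
  rw [hw.mem_nhds_iff] at hU
  obtain ⟨s, r, hr, hsub⟩ := hU
  obtain ⟨n, hn⟩ := orbit_dense s y hr
  refine ⟨(T' ^ n) (e 𝕜 1), hsub ?_, ⟨n, rfl⟩⟩
  rw [Seminorm.mem_ball, hpow]
  exact hn

end Pool.Agent.Results.MP_3984bd_an.CompleteCountable
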